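import Pool.Agent.H23.RDD.Targets

set_option autoImplicit false

/-!
MP_c65535_nt: module LA (board rdd_modules): roots of two close polynomials.
-/

namespace Pool.Agent.H67.RDD

open Pool.Agent.H23.RDD Pool.Agent.H24.RD NumberField Height Finset Polynomial

theorem coeff_bd {M : Type} [Field M] (w : AbsoluteValue M ℝ) (hw : IsNonarchimedean w)
    {ι : Type} (b : ι → M) (z : M) (s : Finset ι) : ∀ k : ℕ,
    w ((∏ j ∈ s, (X - C (b j))).coeff k) * (w z) ^ k ≤ ∏ j ∈ s, max (w z) (w (b j)) := by
  classical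
  induction s using Finset.induction_on with
  | empty =>
    intro k
    rw [Finset.prod_empty, Finset.prod_empty, coeff_one]
    split_ifs with h
    · subst h; simp
    · simp
  | insert a s ha ih =>
    intro k
    rw [Finset.prod_insert ha, Finset.prod_insert ha]
    have hz0 := w.nonneg z
    have hb0 := w.nonneg (b a)
    have hm1 : w z ≤ max (w z) (w (b a)) := le_max_left _ _
    have hm2 : w (b a) ≤ max (w z) (w (b a)) := le_max_right _ _
    have hpr : 0 ≤ ∏ j ∈ s, max (w z) (w (b j)) :=
      Finset.prod_nonneg fun j _ => hz0.trans (le_max_left _ _)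
    have hB : ∀ k, w (b a * (∏ j ∈ s, (X - C (b j))).coeff k) * (w z) ^ k ≤
        max (w z) (w (b a)) * ∏ j ∈ s, max (w z) (w (b j)) := by
      intro k
      rw [map_mul, mul_assoc]
      exact mul_le_mul hm2 (ih k) (by positivity) (hb0.trans hm2)
    cases k with
    | zero =>
      rw [sub_mul, coeff_sub, mul_coeff_zero, coeff_X_zero, zero_mul, coeff_C_mul, zero_sub,
        AbsoluteValue.map_neg]
      exact hB 0
    | succ k =>
      rw [sub_mul, coeff_sub, coeff_X_mul, coeff_C_mul]
      have h2 : w ((∏ j ∈ s, (X - C (b j))).coeff k) * (w z) ^ (k + 1) ≤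
          max (w z) (w (b a)) * ∏ j ∈ s, max (w z) (w (b j)) := by
        have h3 : w ((∏ j ∈ s, (X - C (b j))).coeff k) * (w z) ^ (k + 1) =
          w z * (w ((∏ j ∈ s, (X - C (b j))).coeff k) * (w z) ^ k) := by ring
        rw [h3]
        exact mul_le_mul hm1 (ih k) (by positivity) (hz0.trans hm1)
      have h4 : w ((∏ j ∈ s, (X - C (b j))).coeff k -
          b a * (∏ j ∈ s, (X - C (b j))).coeff (k + 1)) ≤
          max (w ((∏ j ∈ s, (X - C (b j))).coeff k))
            (w (b a * (∏ j ∈ s, (X - C (b j))).coeff (k + 1))) := by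
        have h5 := hw ((∏ j ∈ s, (X - C (b j))).coeff k)
          (-(b a * (∏ j ∈ s, (X - C (b j))).coeff (k + 1)))
        rwa [← sub_eq_add_neg, AbsoluteValue.map_neg] at h5
      refine (mul_le_mul_of_nonneg_right h4 (by positivity)).trans ?_
      rw [max_mul_of_nonneg _ _ (by positivity)]
      exact max_le h2 (hB (k + 1))

theorem pf_LA : T_LA := by
  intro M _ w hw d ε hd he0 he1 ι _ hcard b hb P z hz hP
  set Q : M[X] := ∏ j, (X - C (b j)) with hQ
  set B : ℝ := ∏ j, max (w z) (w (b j)) with hB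
  have hz0 := w.nonneg z
  have hm : ∀ j, 0 < max (w z) (w (b j)) := fun j => lt_max_of_lt_right (w.pos (hb j))
  have hBpos : 0 < B := Finset.prod_pos fun j _ => hm j
  have h1 : w (Q.eval z) ≤ ε * B := by
    have h2 : Q.eval z = -((P - Q).eval z) := by rw [eval_sub, hz]; ring
    rw [h2, AbsoluteValue.map_neg, eval_eq_sum_range]
    refine Finset.sum_induction _ (fun x => w x ≤ ε * B)
      (fun a b ha hb => (hw a b).trans (max_le ha hb)) ?_ ?_
    · rw [map_zero]; positivity
    · intro k _
      rw [map_mul, map_pow, coeff_sub]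
      have h3 := coeff_bd w hw b z Finset.univ k
      calc w (P.coeff k - Q.coeff k) * w z ^ k ≤ (ε * w (Q.coeff k)) * w z ^ k :=
            mul_le_mul_of_nonneg_right (hP k) (by positivity)
        _ = ε * (w (Q.coeff k) * w z ^ k) := by ring
        _ ≤ ε * B := mul_le_mul_of_nonneg_left h3 he0.le
  have h2 : w (Q.eval z) = ∏ j, w (z - b j) := by
    rw [hQ, eval_prod, map_prod]
    simp
  rw [h2] at h1
  by_contra hcon
  push Not at hcon
  have h3 : ∀ j, ε ^ (1 / (d : ℝ)) * max (w z) (w (b j)) < w (z - b j) := by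
    intro j
    have h4 := hcon j
    have hbj : 0 < w (b j) := w.pos (hb j)
    have h5 : w (z - b j) = w (z / b j - 1) * w (b j) := by
      rw [← map_mul, sub_mul, div_mul_cancel₀ _ (hb j), one_mul]
    have h6 : max (w z) (w (b j)) = max (w (z / b j)) 1 * w (b j) := by
      rw [max_mul_of_nonneg _ _ hbj.le, ← map_mul, div_mul_cancel₀ _ (hb j), one_mul]
    rw [h5, h6, ← mul_assoc]
    exact mul_lt_mul_of_pos_right h4 hbj
  have hε : 0 < ε ^ (1 / (d : ℝ)) := Real.rpow_pos_of_pos he0 _
  rcases isEmpty_or_nonempty ι with hι | hι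
  · rw [hB, Finset.univ_eq_empty, Finset.prod_empty, Finset.prod_empty] at h1
    linarith
  · have h4 : ∏ j, (ε ^ (1 / (d : ℝ)) * max (w z) (w (b j))) < ∏ j, w (z - b j) :=
      Finset.prod_lt_prod_of_nonempty (fun j _ => mul_pos hε (hm j)) (fun j _ => h3 j)
        Finset.univ_nonempty
    rw [Finset.prod_mul_distrib, Finset.prod_const, Finset.card_univ] at h4
    have hd' : (0 : ℝ) < d := by exact_mod_cast hd
    have h5 : ε ≤ (ε ^ (1 / (d : ℝ))) ^ Fintype.card ι := by
      rw [← Real.rpow_natCast, ← Real.rpow_mul he0.le]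
      have h6 : (1 / (d : ℝ)) * (Fintype.card ι : ℕ) ≤ 1 := by
        rw [one_div, inv_mul_le_iff₀ hd', mul_one]
        exact_mod_cast hcard
      calc ε = ε ^ (1 : ℝ) := (Real.rpow_one ε).symm
        _ ≤ _ := Real.rpow_le_rpow_of_exponent_ge he0 he1.le h6
    have h7 := mul_le_mul_of_nonneg_right h5 hBpos.le
    linarith

end Pool.Agent.H67.RDD
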