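import Pool.Agent.H23.RDD.Targets

set_option autoImplicit false

/-!
MP_c65535_nt: module WE (board rdd_modules): existence of wild elements.
-/

namespace Pool.Agent.H67.RDD

open Pool.Agent.H23.RDD Pool.Agent.H24.RD NumberField Height Finset Polynomial

open Classical in
theorem pf_WE : T_GEN → T_LI → T_WT → T_VC → T_WE := by
  intro hGEN hLI hWT hVC F _ _ p hp r γ hγ
  obtain ⟨CL, hCL0⟩ := hLI F p hp r γ hγ
  refine ⟨CL + 1, fun R => ?_⟩
  set T : ℕ := p ^ ((r + 1) * R) with hT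
  have hT1 : 1 ≤ T := Nat.one_le_pow _ _ hp.pos
  refine ⟨T, 2 * T + R + 1, hT1, ?_⟩
  intro M _ _ _ _ _ n m n1 n2 N' K' hL hζ hθ hadj
  have hCL := hCL0 M
  obtain ⟨h0, h1, h2, h3, h4, h5, h6, h7⟩ := hL
  obtain ⟨hcard, -⟩ := hVC F M p hp r γ hγ n m n1 N' K' h3 h4 (by omega) h6 h7 hζ hθ hadj
  have hcardT : Nat.card (VV F M γ p n1 K') ≤ T := by
    refine hcard.trans ?_
    rw [hT]
    exact Nat.pow_le_pow_right hp.pos (Nat.mul_le_mul_left _ (by omega))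
  refine ⟨hcardT, ?_⟩
  have hK'p : ¬ p ∣ K' := fun h => h6 (h.trans h7)
  have hN0 : N' ≠ 0 := by
    rintro rfl
    exact h6 (dvd_zero p)
  obtain ⟨ζ0, hζ0⟩ := hζ
  have hζ1 : IsPrimitiveRoot (ζ0 ^ (p ^ (n - n2) * N')) (p ^ n2) := by
    refine hζ0.pow (Nat.pos_of_ne_zero (mul_ne_zero (pow_ne_zero _ hp.ne_zero) hN0)) ?_
    have : p ^ n = p ^ (n - n2) * p ^ n2 := by
      rw [← pow_add]
      congr 1
      omega
    rw [this]
    ring
  set ζ : M := ζ0 ^ (p ^ (n - n2) * N') with hζd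
  have hz1 : IsPrimitiveRoot (ζ ^ (p ^ (n2 - n1))) (p ^ n1) := by
    refine hζ1.pow (pow_pos hp.pos _) ?_
    rw [← pow_add]
    congr 1
    omega
  have hθ1 : ∀ i, ∃ θ : M, θ ^ (p ^ n1) = algebraMap F M (γ i) := fun i => by
    obtain ⟨θ, hθi⟩ := hθ i
    refine ⟨θ ^ (p ^ (m - n1) * K'), ?_⟩
    rw [← pow_mul, ← hθi]
    congr 1
    have : p ^ m = p ^ (m - n1) * p ^ n1 := by
      rw [← pow_add]
      congr 1
      omega
    rw [this]
    ring
  have hθ2 : ∀ i, ∃ θ : M, θ ^ K' = algebraMap F M (γ i) := fun i => by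
    obtain ⟨θ, hθi⟩ := hθ i
    refine ⟨θ ^ (p ^ m), ?_⟩
    rw [← pow_mul, ← hθi]
  set S : Finset (M ≃ₐ[F] M) :=
    univ.filter (fun t : M ≃ₐ[F] M => t ∈ VV F M γ p n1 K' ∧ t ζ ≠ ζ) with hS
  have hScard : S.card ≤ T := by
    refine le_trans ?_ hcardT
    rw [Nat.card_eq_fintype_card, Fintype.card_subtype]
    apply Finset.card_le_card
    intro t ht
    rw [hS, Finset.mem_filter] at ht
    rw [Finset.mem_filter]
    exact ⟨Finset.mem_univ _, ht.2.1⟩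
  have hTR : (1 : ℝ) ≤ T := by exact_mod_cast hT1
  intro v hv
  obtain ⟨x0, hx0⟩ := hGEN F M p hp v hv
  have hsum := hCL n1 n2 K' hK'p (by omega) ζ hζ1 hθ1 hθ2 v hv x0 hx0
  have hsum1 : (1 : ℝ) ≤ ∑ t ∈ S, wv v.1 p (t x0 - x0) := by
    refine le_trans (le_of_eq ?_) hsum
    rw [h1]
    push_cast
    ring
  have hex : ∃ t ∈ S, 1 / (T : ℝ) ≤ wv v.1 p (t x0 - x0) := by
    by_contra hno
    push Not at hno
    have hb : ∑ t ∈ S, wv v.1 p (t x0 - x0) < 1 := by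
      rcases S.eq_empty_or_nonempty with hSe | hSn
      · rw [hSe, Finset.sum_empty]
        exact one_pos
      · calc ∑ t ∈ S, wv v.1 p (t x0 - x0) < ∑ t ∈ S, 1 / (T : ℝ) :=
              Finset.sum_lt_sum_of_nonempty hSn hno
          _ = S.card * (1 / (T : ℝ)) := by rw [Finset.sum_const, nsmul_eq_mul]
          _ ≤ T * (1 / (T : ℝ)) := by
              apply mul_le_mul_of_nonneg_right _ (by positivity)
              exact_mod_cast hScard
          _ = 1 := by field_simp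
    linarith
  obtain ⟨t, ht, hct⟩ := hex
  rw [hS, Finset.mem_filter] at ht
  have ht1 : t ≠ 1 := by
    rintro rfl
    exact ht.2.2 rfl
  have hfix : t (ζ ^ (p ^ (n2 - n1))) = ζ ^ (p ^ (n2 - n1)) :=
    ht.2.1 _ (Or.inr (Or.inl hz1.pow_eq_one))
  have hbig : 2 * T ≤ p ^ (n1 - 1) * (p - 1) := by
    have e1 : 2 * T + R ≤ n1 - 1 := by omega
    have e2 : n1 - 1 < p ^ (n1 - 1) := Nat.lt_pow_self hp.one_lt
    have e3 : 1 ≤ p - 1 := by have := hp.two_le; omega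
    calc 2 * T ≤ n1 - 1 := by omega
      _ ≤ p ^ (n1 - 1) * 1 := by omega
      _ ≤ p ^ (n1 - 1) * (p - 1) := Nat.mul_le_mul_left _ e3
  exact ⟨t, ht.2.1, ⟨ζ, hζ1.pow_eq_one, ht.2.2⟩, fun x hx =>
    hWT F M p hp v hv x0 hx0 t T hT1 ht1 hct n1 _ hz1 hfix (by omega) hbig x hx⟩

end Pool.Agent.H67.RDD
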